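import Pool.Agent.L0h75.PA.Stm
import Pool.Agent.Y698.Er

/-!
# PA: the powers of the Hecke character, the characters of the norm, reciprocity
-/

set_option autoImplicit false

namespace Pool.Agent.L0h2.PA

open Pool.Agent.Y698 Pool.Agent.Y698.SG Pool.Agent.L0h4.TW Pool.Agent.L0h75.EV
open Pool.Agent.W192.HK Pool.Agent.TH936.AC Pool.Agent.TH936.AW Pool.Agent.L0h75.PA

lemma bar_spR (g : RR) : bar (sp g) = sp (cj g) :=
  (abar RR al qp).2.2.2.2.2.1 g (cj g) (cj_coe g)

theorem t_HCM : S_HCM := by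
  intro m hm
  have h := psi_HC
  refine ⟨⟨h.ne, ?_, ?_, ?_, ?_⟩, ?_⟩
  · intro I J
    unfold psiM
    rw [h.mul, mul_pow]
  · intro I
    unfold psiM
    rw [pow_eq_zero_iff (by omega), h.zero]
  · intro α h0 h1
    unfold psiM
    rw [h.princ α h0 h1, pow_one]
  · intro q' hq'
    have htop : q' = ⊤ := (maximal_sp irr_fR).out.2 _ hq'
    refine ⟨-1, by norm_num, by rw [htop]; trivial, ?_, ?_⟩
    · rw [Ideal.isCoprime_span_singleton_iff]
      exact ⟨-1, 0, by ring⟩
    · have hodd : Odd (2 * m - 1) := ⟨m - 1, by omega⟩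
      unfold psiM
      rw [psi_sp, e7_neg, e7_one]
      push_cast
      rw [hodd.neg_one_pow]
      norm_num
  · intro I
    obtain ⟨g, rfl⟩ := exists_gen I
    rw [bar_spR]
    unfold psiM
    rw [psi_sp, psi_sp, map_pow, map_mul, e7_conj, e7_cj, cj_coe]

lemma nR_cj (g : RR) : nR (cj g) = nR g := by
  have h1 : ((nR (cj g) : ℤ) : RR) = ((nR g : ℤ) : RR) := by
    rw [← mul_cj, ← mul_cj, cj_cj, mul_comm]
  have h2 := congrArg (fun t : RR => (t : ℂ)) h1
  simp only [Subring.coe_intCast] at h2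
  exact_mod_cast h2

theorem t_CSX : S_CSX := by
  intro φ hφ I
  obtain ⟨g, rfl⟩ := exists_gen I
  show φ (nI (bar (sp g))) = (starRingEnd ℂ) (φ (nI (sp g)))
  rw [bar_spR, nI_sp, nI_sp, nR_cj, hφ]

theorem t_REC : Pool.Agent.L0h75.PA.S_REC := by
  intro q hq
  have hp := hq.pr
  have hodd : Odd q := by
    rcases hp.eq_two_or_odd' with h | h
    · exact absurd h (by
        intro h2
        have := hq.odd
        omega)
    · exact h
  have h7 : Odd 7 := by decide
  have hr := jacobiSym.quadratic_reciprocity hodd h7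
  have hcop : Int.gcd 7 q = 1 := by
    have h1 : Nat.Coprime 7 q := by
      rw [Nat.coprime_primes (by norm_num) hp]
      intro h
      exact hq.n7 h.symm
    exact h1
  have hsq := jacobiSym.sq_one (a := 7) (b := q) hcop
  have hr' : jacobiSym q 7 = (-1) ^ (q / 2 * (7 / 2)) * jacobiSym 7 q := by exact_mod_cast hr
  rw [hr', mul_assoc, ← pow_two, hsq, mul_one]
  unfold sg4
  have h3 : 7 / 2 = 3 := by norm_num
  rw [h3]
  obtain ⟨k, hk⟩ := hodd
  split_ifs with h4
  · have : Odd (q / 2 * 3) := by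
      have h5 : Odd (q / 2) := ⟨q / 4, by omega⟩
      exact h5.mul (by decide)
    exact this.neg_one_pow
  · have : Even (q / 2 * 3) := by
      have h5 : Even (q / 2) := ⟨q / 4, by omega⟩
      exact h5.mul_right 3
    exact this.neg_one_pow

end Pool.Agent.L0h2.PA
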